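import Pool.Agent.Y456.LG.Etale

/-!
# Finite generation of étale motivic cohomology: linear sections of `GL_m`

Let `M` be a square matrix of polynomials over `ℤ` each of whose entries is `0`, `1` or a variable
(`IsPattern`; each of the `d` variables occurs). The points `x` of the affine space `𝔸^d` over `ℤ` such that
`M(x)` is invertible form the scheme `secGL M`; it is the intersection of `GL_m` with an affine linear space
with equations `g_ij = 0`, `g_ij = 1`, `g_ij = g_kl`, and it is affine and smooth over `ℤ`.

1. The groups `H^i(X_et, ℤ^c(n))` are finitely generated for all arithmetic schemes `X`, all `n < 0` and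
   all `i` (this contains Q1) if and only if, for one integer `N`, the groups `H^i(U_et, ℤ^c(-1))` are
   finitely generated for all `i ≤ N` and all linear sections `U = secGL M`.
2. For each `n < 0` and each `d`: the groups `H^i(X_et, ℤ^c(n))` are finitely generated for all `i` and all
   closed subschemes `X` of `𝔸^d` if and only if this is true for the linear sections in `d` variables.

The cohomology is given by its known properties (`IsEtCoh`).
-/

namespace Pool.Agent.Results.MP_c1eb4d_ag.LinearSectionsOfGL

open CategoryTheory AlgebraicGeometry MvPolynomial Pool.Agent.Y116.UV Pool.Agent.Y111.WM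
  Pool.Agent.Y456.LG

/-- Finite generation of the étale cohomology of Bloch's cycle complexes in the weights `n < 0` for all
arithmetic schemes is equivalent to finite generation in the weight `-1` and the degrees `i ≤ N` for the
smooth affine linear sections of `GL_m` given by patterns of zeros, ones and variables; and in each weight
`n < 0`, all closed subschemes of `𝔸^d` are equivalent to the linear sections in `d` variables. -/
theorem result (T : EtCoh) (hT : IsEtCoh T) :
    (∀ N : ℤ, Conjecture T ↔
      ∀ (d m : ℕ) (M : Matrix (Fin m) (Fin m) (MvPolynomial (Fin d) ℤ)), IsPattern M →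
        FGUpTo T (-1) N (secGL M)) ∧
    ∀ n : ℤ, n < 0 → ∀ d : ℕ,
      ((∀ (A : Type) [CommRing A] [Algebra ℤ A] (a : Fin d → A),
        Function.Surjective (MvPolynomial.aeval (R := ℤ) a) → FGAll T n (aff ℤ A)) ↔
      ∀ (m : ℕ) (M : Matrix (Fin m) (Fin m) (MvPolynomial (Fin d) ℤ)), IsPattern M →
        FGAll T n (secGL M)) :=
  ⟨fun N => ⟨fun h _ _ M _ i _ => h (secGL M) (ft_secGL M) (-1) (by norm_num) i, etale_conj hT N⟩,
    fun _ hn d => etale_dim hT hn d⟩

end Pool.Agent.Results.MP_c1eb4d_ag.LinearSectionsOfGL
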