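import Pool.Agent.Y156.E.Main

/-!
# Etale cycle complexes of proper regular arithmetic schemes: the reduction to one weight

The question is whether `H^i(X_et, ℤ^c(n))` is finitely generated for all proper regular arithmetic
schemes `X`, all `n < 0` and all `i ≤ -2 n + 1`. Here `H^i(X_et, ℤ^c(n)) = H^(2 d + i)(X_et, ℤ(d - n))`,
`d = dim X`.

1. The question is equivalent to the finite generation for `n = -1` and `-2 d ≤ i ≤ 2`, for the proper
  regular schemes of large dimension in a class such that each `X` has a projective surjective morphism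
  from an element of the class (for instance, projective schemes with strictly semistable reduction).
2. For each weight `w ≤ 0`, the finite generation in the weight `w` for `-2 d ≤ i ≤ -2 w`, for such a class,
  implies the finite generation in all the weights `n ≤ w` for all `i ≤ -2 n`, and the vanishing of the
  groups for `i < -2 d` (conjecture of Beilinson and Soule), for all proper regular `X`. The same
  holds for each value `m = i + 2 n` separately.

The etale motivic cohomology is given by its known properties (`IsEtale`).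
-/

set_option autoImplicit false

namespace Pool.Agent.Results.MP_c1eb4d_ag.OneWeight

open Pool.Agent.Y156.E

/-- The reduction to one weight, inside the proper regular schemes. -/
theorem result (T : EtaleData) (hT : IsEtale T) {S : T.V → Prop} (hS : Dominating S) (D : ℕ) :
    ((∀ (X : T.V) (n i : ℤ), n < 0 → i ≤ -2 * n + 1 → AddGroup.FG (Hc X i n)) ↔
      ∀ X, S X → D ≤ T.dim X → ∀ i : ℤ, -2 * T.dim X ≤ i → i ≤ 2 → AddGroup.FG (Hc X i (-1))) ∧
    (∀ w : ℤ, w ≤ 0 →
      (∀ X, S X → D ≤ T.dim X → ∀ i : ℤ, -2 * T.dim X ≤ i → i ≤ -2 * w →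
        AddGroup.FG (Hc X i w)) →
      ∀ (X : T.V) (n : ℤ), n ≤ w → (∀ i : ℤ, i ≤ -2 * n → AddGroup.FG (Hc X i n)) ∧
        ∀ i : ℤ, i < -2 * T.dim X → ∀ x : Hc X i n, x = 0) ∧
    (∀ w : ℤ, w ≤ 0 → ∀ m : ℤ,
      (∀ X, S X → D ≤ T.dim X → 0 ≤ 2 * T.dim X + (m - 2 * w) →
        AddGroup.FG (Hc X (m - 2 * w) w)) →
      ∀ (X : T.V) (n : ℤ), n ≤ w → AddGroup.FG (Hc X (m - 2 * n) n)) :=
  ⟨⟨fun h X _ _ i _ hi => h X (-1) i (by norm_num) (by omega), fun h X n i hn hi =>
    htop hT X n hn (all_of_weight hT hS D (w := -1) (by norm_num) (fun X hX hD i h0 h1 =>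
      h X hX hD i h0 (by omega)) X n (by omega)).1 i hi⟩,
    fun w hw h X n hn => all_of_weight hT hS D hw h X n hn,
    fun w hw m h X n hn => reduction_c hT hS D hw m h X n hn⟩

end Pool.Agent.Results.MP_c1eb4d_ag.OneWeight
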