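import Pool.Agent.Y156.E.Main

/-!
# Etale cycle complexes of proper regular arithmetic schemes: rational maps in dimension at most three

The question is whether `H^i(X_et, ℤ^c(n))` is finitely generated for all proper regular arithmetic
schemes `X`, all `n < 0` and all `i ≤ -2 n + 1`. Here `H^i(X_et, ℤ^c(n)) = H^(2 d + i)(X_et, ℤ(d - n))`,
`d = dim X`. Say that `X'` covers `X` if there is a projective surjective morphism from `X'` to `X`, or if
`X'` is projective of dimension at most three and there is a dominant rational map from `X'` to `X`.

1. If `X'` covers `X`, `n ≤ 0`, `i ≤ -2 n`, and `H^i(X'_et, ℤ^c(n))` is finitely generated, then so is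
  `H^i(X_et, ℤ^c(n))`. In particular the question is birationally invariant for projective schemes of
  dimension at most three.
2. The question has a positive answer for all `X` that are covered by a projective bundle over a scheme
  of dimension at most one. For instance, this holds if `dim X ≤ 3` and the generic fibre of `X` is a
  geometrically rational surface over a number field. The base of the bundle can be any scheme for
  which the question has a positive answer (so the question for `X` of dimension three with a ruled
  generic fibre reduces to arithmetic surfaces).

The etale motivic cohomology is given by its known properties (`IsEtale`).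
-/

set_option autoImplicit false

namespace Pool.Agent.Results.MP_c1eb4d_ag.RationalDomination

open Pool.Agent.Y156.E

/-- Descent along rational maps in dimension at most three, and covered schemes. -/
theorem result (T : EtaleData) (hT : IsEtale T) :
    (∀ {X' X : T.V}, Covers X' X → ∀ n i : ℤ, n ≤ 0 → i ≤ -2 * n → AddGroup.FG (Hc X' i n) →
      AddGroup.FG (Hc X i n)) ∧
    (∀ {P Y X : T.V} {k : ℕ}, T.IsBundle P Y k →
      (T.dim Y ≤ 1 ∨ ∀ n i : ℤ, n < 0 → i ≤ -2 * n + 1 → AddGroup.FG (Hc Y i n)) → Covers P X →
      ∀ n i : ℤ, n < 0 → i ≤ -2 * n + 1 → AddGroup.FG (Hc X i n)) :=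
  ⟨fun h _ _ hn hi hfg => fgc_of_covers hT h hn hi hfg,
    fun h hY hX n i hn hi => htop hT _ n hn (fun _ hi => fgc_of_bundle hT h hY hX hn hi) i hi⟩

end Pool.Agent.Results.MP_c1eb4d_ag.RationalDomination
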